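import Pool.Agent.helper94.FJ.SpecP

/-!
# Project fj (MP_ad8ced_nt), row PMV: mean values of products of Dirichlet polynomials
-/

set_option autoImplicit false

namespace Pool.Agent.FJ

open Finset ArithmeticFunction MeasureTheory
open Pool.Agent.CH (nit DPb)
open Pool.Agent.SK (tr0 Th muz sml bgf zN uu)
open Pool.Agent.helper85.BVP (tau)

private lemma PMV_nit (t : ℝ) (m k : ℕ) (hm : 0 < m) (hk : 0 < k) :
    nit t ((m * k : ℕ) : ℝ) = nit t m * nit t k := by
  have hm' : (m : ℝ) ≠ 0 := by exact_mod_cast hm.ne'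
  have hk' : (k : ℝ) ≠ 0 := by exact_mod_cast hk.ne'
  unfold nit
  rw [← Complex.exp_add, Nat.cast_mul, Real.log_mul hm' hk']
  congr 1
  push_cast
  ring

private lemma PMV_tau_one (n : ℕ) (hn : 1 ≤ n) : 1 ≤ tau n := by
  unfold tau
  have : 0 < #n.divisors := Finset.card_pos.2 ⟨1, Nat.one_mem_divisors.2 (by omega)⟩
  exact_mod_cast this

private lemma PMV_tau_dvd (m n : ℕ) (hn : 1 ≤ n) (h : m ∣ n) : tau m ≤ tau n := by
  unfold tau
  exact_mod_cast Finset.card_le_card (Nat.divisors_subset_of_dvd (by omega) h)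

/-- the coefficients of the product with one more polynomial -/
private noncomputable def PMV_c (M : ℕ) (a b : ℕ → ℂ) (n : ℕ) : ℂ :=
  ∑ m ∈ n.divisors with m ∈ Ico M (2 * M), a m * b (n / m)

private lemma PMV_swap (M X : ℕ) (hM : 1 ≤ M) (a b : ℕ → ℂ) (t : ℝ) :
    ∑ n ∈ Ioc 0 X, PMV_c M a b n * nit t n =
      ∑ m ∈ Ico M (2 * M), a m * nit t m * ∑ k ∈ Ioc 0 (X / m), b k * nit t k := by
  have h1 : ∀ n ∈ Ioc 0 X, PMV_c M a b n * nit t n =
      ∑ m ∈ Ico M (2 * M), if m ∣ n then a m * b (n / m) * nit t n else 0 := by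
    intro n hn
    rw [mem_Ioc] at hn
    unfold PMV_c
    rw [Finset.sum_mul, ← Finset.sum_filter]
    refine Finset.sum_congr ?_ fun _ _ => rfl
    ext m
    simp only [Finset.mem_filter, Nat.mem_divisors, Finset.mem_Ico]
    constructor
    · rintro ⟨⟨h1, _⟩, h3⟩
      exact ⟨h3, h1⟩
    · rintro ⟨h3, h1⟩
      exact ⟨⟨h1, hn.1.ne'⟩, h3⟩
  rw [Finset.sum_congr rfl h1, Finset.sum_comm]
  refine Finset.sum_congr rfl fun m hm => ?_
  rw [mem_Ico] at hm
  have hm0 : 0 < m := by omega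
  rw [← Finset.sum_filter, Finset.mul_sum]
  symm
  refine Finset.sum_bij (fun k _ => m * k) ?_ ?_ ?_ ?_
  · intro k hk
    rw [mem_Ioc, Nat.le_div_iff_mul_le hm0] at hk
    rw [mem_filter, mem_Ioc]
    exact ⟨⟨Nat.mul_pos hm0 hk.1, by rw [mul_comm]; exact hk.2⟩, dvd_mul_right m k⟩
  · intro k _ k' _ h
    exact Nat.eq_of_mul_eq_mul_left hm0 h
  · intro n hn
    rw [mem_filter, mem_Ioc] at hn
    obtain ⟨⟨h1, h2⟩, ⟨k, rfl⟩⟩ := hn
    refine ⟨k, ?_, rfl⟩
    rw [mem_Ioc, Nat.le_div_iff_mul_le hm0]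
    exact ⟨Nat.pos_of_mul_pos_left h1 |> fun h => h, by rw [mul_comm]; exact h2⟩
  · intro k hk
    rw [mem_Ioc] at hk
    rw [PMV_nit t m k hm0 hk.1, Nat.mul_div_cancel_left k hm0]
    ring

/-- the product as one Dirichlet polynomial -/
private lemma PMV_prod (R c : ℕ) (L : ℝ) (hL : 1 ≤ L) (M : Fin R → ℕ) (a : Fin R → ℕ → ℂ) (hM : ∀ i, 1 ≤ M i)
    (ha : ∀ i m, M i ≤ m → m < 2 * M i → ‖a i m‖ ≤ L ^ c * tau m ^ c) (I : Finset (Fin R)) :
    ∃ b : ℕ → ℂ, (∀ n, b n ≠ 0 → ∏ i ∈ I, M i ≤ n ∧ n ≤ 2 ^ #I * ∏ i ∈ I, M i) ∧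
      (∀ n, 1 ≤ n → ‖b n‖ ≤ (L ^ c * tau n ^ (c + 1)) ^ #I) ∧
      ∀ (t : ℝ) (X : ℕ), 2 ^ #I * ∏ i ∈ I, M i ≤ X →
        ∏ i ∈ I, DPb (M i) (a i) t = ∑ n ∈ Ioc 0 X, b n * nit t n := by
  induction I using Finset.induction_on with
  | empty =>
    refine ⟨fun n => if n = 1 then 1 else 0, ?_, ?_, ?_⟩
    · intro n hn
      have : n = 1 := by
        by_contra h
        simp [h] at hn
      subst this
      simp
    · intro n _
      by_cases h : n = 1
      · simp [h]
      · simp [h]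
    · intro t X hX
      simp only [Finset.card_empty, pow_zero, Finset.prod_empty, mul_one] at hX ⊢
      rw [Finset.sum_eq_single 1]
      · simp [nit]
      · intro n _ hn
        simp [hn]
      · intro h
        exact absurd (Finset.mem_Ioc.2 ⟨by norm_num, hX⟩) h
  | insert j I hj ih =>
    obtain ⟨b, hb1, hb2, hb3⟩ := ih
    have hcard : #(insert j I) = #I + 1 := Finset.card_insert_of_notMem hj
    have hP : ∏ i ∈ insert j I, M i = M j * ∏ i ∈ I, M i := Finset.prod_insert hj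
    refine ⟨PMV_c (M j) (a j) b, ?_, ?_, ?_⟩
    · intro n hn
      rw [hcard, hP]
      unfold PMV_c at hn
      obtain ⟨m, hm, hne⟩ := Finset.exists_ne_zero_of_sum_ne_zero hn
      rw [Finset.mem_filter, Nat.mem_divisors, Finset.mem_Ico] at hm
      obtain ⟨⟨hdvd, hn0⟩, hm1, hm2⟩ := hm
      have hb := hb1 (n / m) (right_ne_zero_of_mul hne)
      obtain ⟨k, rfl⟩ := hdvd
      have hm0 : 0 < m := by
        have := hM j
        omega
      rw [Nat.mul_div_cancel_left k hm0] at hb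
      constructor
      · exact Nat.mul_le_mul hm1 hb.1
      · calc m * k ≤ (2 * M j) * (2 ^ #I * ∏ i ∈ I, M i) := Nat.mul_le_mul hm2.le hb.2
          _ = 2 ^ (#I + 1) * (M j * ∏ i ∈ I, M i) := by ring
    · intro n hn
      rw [hcard]
      unfold PMV_c
      have ht := PMV_tau_one n hn
      have hLc : 1 ≤ L ^ c := one_le_pow₀ hL
      have h1 : ∀ m ∈ n.divisors.filter (fun m => m ∈ Ico (M j) (2 * M j)),
          ‖a j m * b (n / m)‖ ≤ (L ^ c * tau n ^ c) * (L ^ c * tau n ^ (c + 1)) ^ #I := by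
        intro m hm
        rw [Finset.mem_filter, Nat.mem_divisors, Finset.mem_Ico] at hm
        obtain ⟨⟨hdvd, hn0⟩, hm1, hm2⟩ := hm
        rw [norm_mul]
        have hk : 1 ≤ n / m := Nat.div_pos (Nat.le_of_dvd (by omega) hdvd) (by have := hM j; omega)
        have hta : ‖a j m‖ ≤ L ^ c * tau n ^ c := by
          refine (ha j m hm1 hm2).trans (mul_le_mul_of_nonneg_left ?_ (by positivity))
          exact pow_le_pow_left₀ (by unfold tau; positivity) (PMV_tau_dvd _ _ hn hdvd) _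
        refine mul_le_mul hta ((hb2 _ hk).trans ?_) (norm_nonneg _) (by unfold tau; positivity)
        refine pow_le_pow_left₀ (by unfold tau; positivity) ?_ _
        refine mul_le_mul_of_nonneg_left ?_ (by positivity)
        exact pow_le_pow_left₀ (by unfold tau; positivity) (PMV_tau_dvd _ _ hn (Nat.div_dvd_of_dvd hdvd)) _
      refine (norm_sum_le_of_le _ h1).trans ?_
      rw [Finset.sum_const, nsmul_eq_mul, pow_succ]
      have h2 : ((#(n.divisors.filter (fun m => m ∈ Ico (M j) (2 * M j))) : ℕ) : ℝ) ≤ tau n := by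
        unfold tau
        exact_mod_cast Finset.card_filter_le _ _
      have h3 : 0 ≤ (L ^ c * tau n ^ c) * (L ^ c * tau n ^ (c + 1)) ^ #I := by
        unfold tau
        positivity
      calc _ ≤ tau n * ((L ^ c * tau n ^ c) * (L ^ c * tau n ^ (c + 1)) ^ #I) := mul_le_mul_of_nonneg_right h2 h3
        _ = _ := by ring
    · intro t X hX
      rw [hcard, hP] at hX
      rw [Finset.prod_insert hj, PMV_swap (M j) X (hM j)]
      unfold DPb
      rw [Finset.sum_mul]
      refine Finset.sum_congr rfl fun m hm => ?_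
      rw [Finset.mem_Ico] at hm
      have hm0 : 0 < m := by
        have := hM j
        omega
      have h1 : 2 ^ #I * ∏ i ∈ I, M i ≤ X / m := by
        rw [Nat.le_div_iff_mul_le hm0]
        calc 2 ^ #I * (∏ i ∈ I, M i) * m ≤ 2 ^ #I * (∏ i ∈ I, M i) * (2 * M j) :=
              Nat.mul_le_mul_left _ hm.2.le
          _ = 2 ^ (#I + 1) * (M j * ∏ i ∈ I, M i) := by ring
          _ ≤ X := hX
      rw [← hb3 t (X / m) h1]
      rfl

private lemma PMV_blocks (P J : ℕ) (b : ℕ → ℂ) (t : ℝ) :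
    ∑ n ∈ Ico P (2 ^ J * P), b n * nit t n = ∑ j ∈ range J, DPb (2 ^ j * P) b t := by
  induction J with
  | zero => simp
  | succ J ih =>
    rw [Finset.sum_range_succ, ← ih]
    unfold DPb
    have e : 2 ^ (J + 1) * P = 2 * (2 ^ J * P) := by ring
    rw [e]
    symm
    apply Finset.sum_Ico_consecutive
    · exact Nat.le_mul_of_pos_left P (by positivity)
    · omega

private lemma PMV_cont (P : ℕ) (b : ℕ → ℂ) : Continuous (fun t : ℝ => DPb P b t) := by
  unfold DPb nit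
  fun_prop

theorem PMV (hTAM : Pool.Agent.SK.TAM_stmt) (hMVT : Pool.Agent.CH.MVT_stmt) : PMV_stmt := by
  have h1 := hTAM
  have h2 := hMVT
  clear hTAM hMVT
  intro R c
  obtain ⟨C, hC, hMVT⟩ := h2
  set D : ℝ := C * (R + 1) ^ 2 * 2 ^ (2 * R + 1) with hD
  have hD0 : 0 < D := by positivity
  refine ⟨1 + 2 + 2 * (c * R) + 2 * 2 ^ (2 * R * (c + 1)), ?_⟩
  have hev : ∀ᶠ N : ℕ in Filter.atTop, (R : ℝ) + 20 + D ≤ Real.log N :=
    (Real.tendsto_log_atTop.comp tendsto_natCast_atTop_atTop).eventually_ge_atTop _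
  obtain ⟨N₀, hN₀⟩ := Filter.eventually_atTop.1 hev
  refine ⟨N₀ + 1, fun N hN M a hM hPM ha I T hT => ?_⟩
  have hL := hN₀ N (by omega)
  set L := Real.log N with hLdef
  have hR0 : (0 : ℝ) ≤ R := Nat.cast_nonneg R
  have hL1 : 1 ≤ L := by linarith
  have hL0 : 0 < L := by linarith
  obtain ⟨b, hb1, hb2, hb3⟩ := PMV_prod R c L hL1 M a hM ha I
  set P := ∏ i ∈ I, M i with hP
  have hP1 : 1 ≤ P := Finset.one_le_prod' fun i _ => hM i
  have hIR : #I ≤ R := by
    have := Finset.card_le_univ I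
    simpa using this
  -- P ≤ 64 N³
  have hPN : P ≤ 64 * N ^ 3 := by
    refine le_trans ?_ hPM
    exact Finset.prod_le_prod_of_subset_of_one_le' (Finset.subset_univ I) fun i _ _ => hM i
  have hNpos : 0 < N := by omega
  -- the logarithm
  have hlogP : 1 + Real.log ((2 ^ (R + 1) * P : ℕ) : ℝ) ≤ L ^ 2 := by
    have hPr : (0 : ℝ) < P := by exact_mod_cast hP1
    have hNr : (0 : ℝ) < N := by exact_mod_cast hNpos
    have e1 : Real.log ((2 ^ (R + 1) * P : ℕ) : ℝ) = (R + 1) * Real.log 2 + Real.log P := by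
      push_cast
      rw [Real.log_mul (by positivity) hPr.ne', Real.log_pow]
      push_cast; ring
    have e2 : Real.log P ≤ 6 * Real.log 2 + 3 * L := by
      have h3 : Real.log (P : ℝ) ≤ Real.log ((64 * N ^ 3 : ℕ) : ℝ) :=
        Real.log_le_log hPr (by exact_mod_cast hPN)
      have h4 : Real.log ((64 * N ^ 3 : ℕ) : ℝ) = 6 * Real.log 2 + 3 * L := by
        push_cast
        rw [Real.log_mul (by norm_num) (by positivity), Real.log_pow,
          (by norm_num : (64 : ℝ) = 2 ^ 6), Real.log_pow]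
        push_cast; ring
      rw [h4] at h3
      exact h3
    have e3 : Real.log 2 ≤ 1 := by
      have := Real.log_two_lt_d9
      linarith
    have e4 : 0 ≤ Real.log 2 := Real.log_nonneg (by norm_num)
    rw [e1]
    have e5 : ((R : ℝ) + 1) * Real.log 2 ≤ R + 1 := mul_le_of_le_one_right (by linarith) e3
    nlinarith
  have htau : ∀ n : ℕ, 1 ≤ n → 1 ≤ L ^ c * tau n ^ (c + 1) := by
    intro n hn
    have ht : 1 ≤ tau n ^ (c + 1) := one_le_pow₀ (PMV_tau_one n hn)
    have hLc : 1 ≤ L ^ c := one_le_pow₀ hL1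
    nlinarith
  -- the sum of the squares of the coefficients of one block
  have hS : ∀ j ∈ range (R + 1), ∑ k ∈ Ico (2 ^ j * P) (2 * (2 ^ j * P)), ‖b k‖ ^ 2 ≤
      L ^ (2 * (c * R)) * ((2 ^ (R + 1) * P : ℕ) * (L ^ 2) ^ (2 ^ (2 * R * (c + 1)))) := by
    intro j hj
    rw [Finset.mem_range] at hj
    have hsub : Ico (2 ^ j * P) (2 * (2 ^ j * P)) ⊆ Ioc 0 (2 ^ (R + 1) * P) := by
      intro k hk
      rw [Finset.mem_Ico] at hk
      rw [Finset.mem_Ioc]
      have h3 : 0 < 2 ^ j * P := Nat.mul_pos (by positivity) hP1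
      have h4 : 2 * (2 ^ j * P) ≤ 2 ^ (R + 1) * P := by
        have : 2 * (2 ^ j * P) = 2 ^ (j + 1) * P := by ring
        rw [this]
        exact Nat.mul_le_mul_right _ (Nat.pow_le_pow_right (by norm_num) (by omega))
      omega
    calc ∑ k ∈ Ico (2 ^ j * P) (2 * (2 ^ j * P)), ‖b k‖ ^ 2
        ≤ ∑ k ∈ Ioc 0 (2 ^ (R + 1) * P), ‖b k‖ ^ 2 :=
          Finset.sum_le_sum_of_subset_of_nonneg hsub fun _ _ _ => by positivity
      _ ≤ ∑ k ∈ Ioc 0 (2 ^ (R + 1) * P), L ^ (2 * (c * R)) * tau k ^ (2 * R * (c + 1)) := by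
          refine Finset.sum_le_sum fun k hk => ?_
          rw [Finset.mem_Ioc] at hk
          have h3 := hb2 k hk.1
          have h4 : (L ^ c * tau k ^ (c + 1)) ^ #I ≤ (L ^ c * tau k ^ (c + 1)) ^ R := pow_le_pow_right₀ (htau k hk.1) hIR
          have h5 := pow_le_pow_left₀ (norm_nonneg _) (h3.trans h4) 2
          refine h5.trans (le_of_eq ?_)
          rw [← pow_mul, mul_pow, ← pow_mul, ← pow_mul]
          congr 1
          · congr 1; ring
          · congr 1; ring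
      _ = L ^ (2 * (c * R)) * ∑ k ∈ Ioc 0 (2 ^ (R + 1) * P), tau k ^ (2 * R * (c + 1)) := by rw [Finset.mul_sum]
      _ ≤ L ^ (2 * (c * R)) * ((2 ^ (R + 1) * P : ℕ) *
            (1 + Real.log ((2 ^ (R + 1) * P : ℕ) : ℝ)) ^ (2 ^ (2 * R * (c + 1)))) := by
          apply mul_le_mul_of_nonneg_left _ (by positivity)
          exact (h1 (2 * R * (c + 1)) (2 ^ (R + 1) * P)).1
      _ ≤ _ := by
          apply mul_le_mul_of_nonneg_left _ (by positivity)
          apply mul_le_mul_of_nonneg_left _ (by positivity)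
          refine pow_le_pow_left₀ ?_ hlogP _
          have := Real.log_natCast_nonneg (2 ^ (R + 1) * P)
          linarith
  -- the product as the sum of the blocks
  have hprod : ∀ t : ℝ, ∏ i ∈ I, DPb (M i) (a i) t = ∑ j ∈ range (R + 1), DPb (2 ^ j * P) b t := by
    intro t
    have hle : 2 ^ #I * P ≤ 2 ^ (R + 1) * P :=
      Nat.mul_le_mul_right _ (Nat.pow_le_pow_right (by norm_num) (by omega))
    rw [hb3 t (2 ^ (R + 1) * P) hle, ← PMV_blocks]
    symm
    apply Finset.sum_subset_zero_on_sdiff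
    · intro n hn
      rw [Finset.mem_Ico] at hn
      rw [Finset.mem_Ioc]
      omega
    · intro n hn
      rw [Finset.mem_sdiff, Finset.mem_Ioc, Finset.mem_Ico] at hn
      have : b n = 0 := by
        by_contra hne
        have h3 := hb1 n hne
        have h4 : 2 ^ #I * P < 2 ^ (R + 1) * P :=
          Nat.mul_lt_mul_of_pos_right (Nat.pow_lt_pow_right (by norm_num) (by omega)) hP1
        apply hn.2
        omega
      rw [this, zero_mul]
    · intro n _
      rfl
  have hsq : ∀ t : ℝ, ‖∏ i ∈ I, DPb (M i) (a i) t‖ ^ 2 ≤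
      (R + 1 : ℝ) * ∑ j ∈ range (R + 1), ‖DPb (2 ^ j * P) b t‖ ^ 2 := by
    intro t
    rw [hprod t]
    have h3 : ‖∑ j ∈ range (R + 1), DPb (2 ^ j * P) b t‖ ^ 2 ≤
        (∑ j ∈ range (R + 1), ‖DPb (2 ^ j * P) b t‖) ^ 2 :=
      pow_le_pow_left₀ (norm_nonneg _) (norm_sum_le _ _) 2
    have h4 := sq_sum_le_card_mul_sum_sq (s := range (R + 1)) (f := fun j => ‖DPb (2 ^ j * P) b t‖)
    rw [Finset.card_range] at h4
    push_cast at h4
    exact h3.trans h4
  have hT' : -T ≤ T := by linarith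
  have hcontL : Continuous (fun t : ℝ => ‖∏ i ∈ I, DPb (M i) (a i) t‖ ^ 2) := by
    refine Continuous.pow (Continuous.norm ?_) 2
    exact continuous_finsetProd _ fun i _ => PMV_cont _ _
  have hcontj : ∀ j, Continuous (fun t : ℝ => ‖DPb (2 ^ j * P) b t‖ ^ 2) := fun j =>
    ((PMV_cont _ _).norm).pow 2
  have hcontR : Continuous (fun t : ℝ => (R + 1 : ℝ) * ∑ j ∈ range (R + 1), ‖DPb (2 ^ j * P) b t‖ ^ 2) :=
    continuous_const.mul (continuous_finsetSum _ fun j _ => hcontj j)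
  have hI1 : ∫ t in (-T)..T, ‖∏ i ∈ I, DPb (M i) (a i) t‖ ^ 2 ≤
      ∫ t in (-T)..T, (R + 1 : ℝ) * ∑ j ∈ range (R + 1), ‖DPb (2 ^ j * P) b t‖ ^ 2 :=
    intervalIntegral.integral_mono_on hT' (hcontL.intervalIntegrable _ _) (hcontR.intervalIntegrable _ _)
      fun t _ => hsq t
  refine hI1.trans ?_
  rw [intervalIntegral.integral_const_mul,
    intervalIntegral.integral_finsetSum fun j _ => (hcontj j).intervalIntegrable _ _]
  have hPr : (1 : ℝ) ≤ P := by exact_mod_cast hP1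
  have hblock : ∀ j ∈ range (R + 1), ∫ t in (-T)..T, ‖DPb (2 ^ j * P) b t‖ ^ 2 ≤
      C * (2 ^ R * (T + P)) * L ^ 2 *
        (L ^ (2 * (c * R)) * ((2 ^ (R + 1) * P : ℕ) * (L ^ 2) ^ (2 ^ (2 * R * (c + 1))))) := by
    intro j hj
    have hjR : j ≤ R := by
      rw [Finset.mem_range] at hj
      omega
    have h3 := hMVT T (2 ^ j * P) b hT (Nat.mul_pos (by positivity) hP1)
    refine h3.trans ?_
    have h2j : (2 : ℝ) ^ j ≤ 2 ^ R := pow_le_pow_right₀ (by norm_num) hjR
    have h2R : (1 : ℝ) ≤ 2 ^ R := one_le_pow₀ (by norm_num)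
    have e1 : T + ((2 ^ j * P : ℕ) : ℝ) ≤ 2 ^ R * (T + P) := by
      push_cast
      have e2 : T ≤ 2 ^ R * T := le_mul_of_one_le_left (by linarith) h2R
      have e3 : (2 : ℝ) ^ j * P ≤ 2 ^ R * P := mul_le_mul_of_nonneg_right h2j (by linarith)
      linarith
    have e4 : 1 + Real.log ((2 ^ j * P : ℕ) : ℝ) ≤ L ^ 2 := by
      refine le_trans ?_ hlogP
      have : Real.log ((2 ^ j * P : ℕ) : ℝ) ≤ Real.log ((2 ^ (R + 1) * P : ℕ) : ℝ) := by
        apply Real.log_le_log
        · exact_mod_cast Nat.mul_pos (by positivity) hP1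
        · exact_mod_cast Nat.mul_le_mul_right _ (Nat.pow_le_pow_right (by norm_num) (by omega))
      linarith
    have e5 : 0 ≤ 1 + Real.log ((2 ^ j * P : ℕ) : ℝ) := by
      have := Real.log_natCast_nonneg (2 ^ j * P)
      linarith
    have e6 : 0 ≤ ∑ k ∈ Ico (2 ^ j * P) (2 * (2 ^ j * P)), ‖b k‖ ^ 2 :=
      Finset.sum_nonneg fun _ _ => by positivity
    refine mul_le_mul ?_ (hS j hj) e6 (by positivity)
    refine mul_le_mul ?_ e4 e5 (by positivity)
    exact mul_le_mul_of_nonneg_left e1 hC.le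
  have hsum := Finset.sum_le_sum hblock
  rw [Finset.sum_const, Finset.card_range, nsmul_eq_mul] at hsum
  have hfin := mul_le_mul_of_nonneg_left hsum (by positivity : (0 : ℝ) ≤ (R + 1 : ℝ))
  refine hfin.trans ?_
  have hDL : D ≤ L := by linarith
  have e7 : (R + 1 : ℝ) * (((R + 1 : ℕ) : ℝ) * (C * (2 ^ R * (T + P)) * L ^ 2 *
        (L ^ (2 * (c * R)) * ((2 ^ (R + 1) * P : ℕ) * (L ^ 2) ^ (2 ^ (2 * R * (c + 1))))))) =
      D * ((T + P) * P * (L ^ 2 * L ^ (2 * (c * R)) * L ^ (2 * 2 ^ (2 * R * (c + 1))))) := by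
    rw [hD, ← pow_mul L 2 (2 ^ (2 * R * (c + 1)))]
    push_cast
    ring
  rw [e7]
  have e8 : 0 ≤ (T + (P : ℝ)) * P * (L ^ 2 * L ^ (2 * (c * R)) * L ^ (2 * 2 ^ (2 * R * (c + 1)))) := by
    have : 0 ≤ T + (P : ℝ) := by linarith
    positivity
  refine (mul_le_mul_of_nonneg_right hDL e8).trans (le_of_eq ?_)
  rw [pow_add, pow_add, pow_add, pow_one]
  ring

end Pool.Agent.FJ
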