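import Pool.Agent.helper95.FJ.SpecX

set_option autoImplicit false

noncomputable section

namespace Pool.Agent.FJ

open Finset Pool.Agent.FI Pool.Agent.BP

theorem PMW (hMAP : MAP_stmt) (hKPS : KPS_stmt) : PMW_stmt := by
  have hS : 0 < Sg := hKPS.1
  have hl : 0 < lep := by
    unfold lep
    apply Real.log_pos
    have := Real.sqrt_nonneg 8
    linarith
  have h8 : 0 < √8 := Real.sqrt_pos.2 (by norm_num)
  have hc : 0 < √8 / (4 * lep) * Sg := by positivity
  refine ⟨√8 / (4 * lep) * Sg, hc, fun η hη => ?_⟩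
  obtain ⟨x₀, hx⟩ := hMAP η hη _ hc
  refine ⟨x₀, fun x h1 A h2 h3 => ?_⟩
  have h := (abs_le.1 (hx x h1 A h2 h3)).1
  have e : √8 / (2 * lep) * Sg = 2 * (√8 / (4 * lep) * Sg) := by
    field_simp
    ring
  rw [e] at h
  linarith

end Pool.Agent.FJ
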